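import Mathlib
import Pool.Agent.H.MP_45ee41_an.C
namespace Pool.Agent.Results.MP_45ee41_an.NoUniform
open MeasureTheory Filter Topology

noncomputable def Trunc (e l : ℝ) (f : ℝ → ℂ) (x δ : ℝ) : ℂ :=
  ∫ y in {y : ℝ | δ < |x - y| ∧ |x - y| < 1 / δ},
    Complex.exp (Complex.I * ((l * |x - y| ^ e : ℝ) : ℂ)) / ((x - y : ℝ) : ℂ) * f y

theorem result (C : ℝ) :
    ∃ e : ℝ, 0 < e ∧ e < 1 / 2 ∧ ∃ (f : SchwartzMap ℝ ℂ) (H : ℝ → ℝ → ℂ),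
      (∀ l x : ℝ, Tendsto (Trunc e l f x) (𝓝[>] 0) (𝓝 (H l x))) ∧
      ENNReal.ofReal C * eLpNorm f 2 volume < eLpNorm (fun x => ⨆ l, ‖H l x‖ₑ) 2 volume := by
  obtain ⟨e, he, f, H, h1, h2⟩ := Pool.Agent.H.MP_45ee41_an.main C
  exact ⟨e, he.1, he.2, f, H, h1, h2⟩

end Pool.Agent.Results.MP_45ee41_an.NoUniform
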